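import Pool.Agent.H95.Corr

set_option autoImplicit false

open Pool.Agent.H95.Corr

theorem Pool.Agent.Results.MP_3f07b9_an.StaysAway.result (n : ℕ) (A : Matrix (Fin n) (Fin n) ℝ)
    (hp : A.PosSemidef) (hd : ∀ i, A i i = 1) (hne : A ≠ Matrix.of fun _ _ => 1) :
    (∀ (k : ℕ) (i : Fin n), ∃ j, C^[k + 1] A i j ≤ 1 - 1 / (2 * (n : ℝ) ^ 3)) ∧
      ∃ c > 0, ∀ k : ℕ, ∃ i j, c ≤ |C^[k] A i j - 1| := by
  refine ⟨main hp hd hne, ?_⟩
  obtain ⟨i, j, h⟩ : ∃ i j, A i j ≠ 1 := by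
    by_contra hc
    push Not at hc
    exact hne (by ext i j; exact hc i j)
  have hn : (0 : ℝ) < n := by exact_mod_cast i.pos
  have h1 : 0 < |A i j - 1| := abs_pos.2 (sub_ne_zero.2 h)
  refine ⟨min |A i j - 1| (1 / (2 * (n : ℝ) ^ 3)), by positivity, fun k => ?_⟩
  rcases k with _ | k
  · exact ⟨i, j, min_le_left _ _⟩
  · obtain ⟨l, hl⟩ := main hp hd hne k i
    refine ⟨i, l, (min_le_right _ _).trans ?_⟩
    rw [abs_sub_comm]
    exact le_trans (by linarith) (le_abs_self _)
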